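import Pool.Agent.Q194.KC.Ratio

/-!
# Polydisks maximise the `k`-th capacity ratio for all large `k` (MP_d1c05b_gt)

For every `n ≥ 1`, `k ≥ 1` and every symplectic `k`-capacity `c` on `ℂ ^ n`:

(1) every convex toric domain `X` has `c (X) / vol (X) ^ (1/n) ≤ (k + n - 1) / (n!) ^ (1/n)`;
(2) if `k ≥ 12 n ^ 4`, then it is at most `k / (n!) ^ (1/n)`, with equality at most for the
  multiples of the polydisk `P_{2n}`;
(3) if `k ≥ 12 n ^ 4` and `c (P_{2n}) = k`, then `P_{2n}` is the global maximiser of the capacity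
  ratio among the convex toric domains, and its multiples are the only maximisers.
-/

set_option autoImplicit false

open scoped ENNReal

namespace Pool.Agent.Results.MP_d1c05b_gt.LargeK

open Pool.Agent.Q194.KC

theorem result (n k : ℕ) (hn : 1 ≤ n) (hk : 1 ≤ k) (c : Set (Fin n → ℂ) → ℝ≥0∞)
    (hc : IsKCapacity k c) :
    (∀ X, IsConvexToricDomain X →
      ratio c X ≤ ENNReal.ofReal (((k : ℝ) + n - 1) / (n.factorial : ℝ) ^ (1 / (n : ℝ)))) ∧
    (12 * n ^ 4 ≤ k → ∀ X, IsConvexToricDomain X →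
      ratio c X ≤ ENNReal.ofReal ((k : ℝ) / (n.factorial : ℝ) ^ (1 / (n : ℝ))) ∧
      (ratio c X = ENNReal.ofReal ((k : ℝ) / (n.factorial : ℝ) ^ (1 / (n : ℝ))) →
        ∃ t : ℝ, 0 < t ∧ X = (fun z => t • z) '' polydisk n)) ∧
    (12 * n ^ 4 ≤ k → c (polydisk n) = k → ∀ X, IsConvexToricDomain X →
      ratio c X ≤ ratio c (polydisk n) ∧
      (ratio c X = ratio c (polydisk n) → ∃ t : ℝ, 0 < t ∧ X = (fun z => t • z) '' polydisk n)) := by
  refine ⟨fun X hX => all_k hn hk hc hX, fun hk' X hX => large_k hn hk' hc hX,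
    fun hk' hP X hX => ?_⟩
  rw [ratio_polydisk hP]
  exact large_k hn hk' hc hX

end Pool.Agent.Results.MP_d1c05b_gt.LargeK
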